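import Pool.Agent.ZPT.Stmts

/-!
Squad ZPT, row MF: modular forms of weight `12 M` are `Δ^M R(J)`.
-/

set_option autoImplicit false

namespace Pool.Agent.ZPT.H39

open Polynomial Pool.Agent.ZPT UpperHalfPlane ModularForm ModularFormClass EisensteinSeries
open scoped MatrixGroups

theorem mf (hJE : JEStmt) : MFStmt := by
  intro M
  induction M with
  | zero =>
    intro F
    obtain ⟨F0, hF0⟩ : ∃ F0 : ModularForm 𝒮ℒ 0, ⇑F0 = ⇑F :=
      ⟨ModularForm.mcast (by simp) F, by rw [coe_mcast]⟩
    obtain ⟨c, hF⟩ := levelOne_weight_zero_const F0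
    rw [hF0] at hF
    refine ⟨C c, by simp, fun z => ?_⟩
    rw [pow_zero, one_mul, Polynomial.eval_C]
    exact congrFun hF z
  | succ M ih =>
    intro F
    obtain ⟨G, hGdef⟩ : ∃ G : ModularForm 𝒮ℒ (12 * ((M + 1 : ℕ) : ℤ)),
        ⇑G = (⇑(ModularForm.E₄)) ^ (3 * (M + 1)) :=
      ⟨ModularForm.mcast (by push_cast; ring) ((ModularForm.E₄).pow (3 * (M + 1))), by
        rw [coe_mcast, ModularForm.coe_pow]⟩
    have hG : (qExpansion 1 G).coeff 0 = 1 := by
      have h1 : qExpansion 1 G = (qExpansion 1 (ModularForm.E₄)) ^ (3 * (M + 1)) := by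
        rw [hGdef, ← ModularForm.coe_pow, ModularForm.qExpansion_pow one_pos one_mem_strictPeriods_SL]
      have h2 : PowerSeries.constantCoeff (qExpansion 1 (ModularForm.E₄)) = 1 := by
        rw [← PowerSeries.coeff_zero_eq_constantCoeff_apply]
        exact E_qExpansion_coeff_zero _ ⟨2, rfl⟩
      rw [h1, PowerSeries.coeff_zero_eq_constantCoeff_apply, map_pow, h2, one_pow]
    obtain ⟨g, hg⟩ := sub_smul_isCuspForm F G hG
    obtain ⟨c, hc⟩ : ∃ c : ℂ, c = (qExpansion 1 F).coeff 0 := ⟨_, rfl⟩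
    rw [← hc] at hg
    have hgz : ∀ z : UpperHalfPlane, g z = F z - c * G z := fun z =>
      congrFun (congrArg DFunLike.coe hg) z
    obtain ⟨H, hH⟩ : ∃ H : ModularForm 𝒮ℒ (12 * (M : ℤ)),
        ⇑H = ⇑(CuspForm.discriminantEquiv g) :=
      ⟨ModularForm.mcast (by push_cast; ring) (CuspForm.discriminantEquiv g), by rw [coe_mcast]⟩
    obtain ⟨R, hR, hRz⟩ := ih H
    refine ⟨C c * X ^ (M + 1) + R, ?_, fun z => ?_⟩
    · refine (natDegree_add_le _ _).trans (max_le ?_ (hR.trans (Nat.le_succ M)))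
      exact natDegree_C_mul_X_pow_le _ _
    · have h1 : F z = c * G z + g z := by rw [hgz z]; ring
      have h2 : g z = ModularForm.discriminant z * H z := by
        rw [hH]
        exact (discriminant_mul_discriminantEquiv_apply g z).symm
      have h3 : G z = (ModularForm.discriminant z * J z) ^ (M + 1) := by
        rw [hJE z, mul_div_cancel₀ _ (discriminant_ne_zero z), hGdef, Pi.pow_apply, pow_mul]
      rw [h1, h2, h3, hRz z, Polynomial.eval_add, Polynomial.eval_mul, Polynomial.eval_C,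
        Polynomial.eval_pow, Polynomial.eval_X]
      ring

end Pool.Agent.ZPT.H39
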